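import Mathlib

/-!
The function `G N = ∑_{i<N} 3^(binary digit sum of i)`.
-/

namespace Pool.Agent.Q254.CrossSp

/-- `3` to the number of binary ones. -/
def w : ℕ → ℕ
  | 0 => 1
  | (n+1) => (if (n+1) % 2 = 1 then 3 else 1) * w ((n+1)/2)
decreasing_by omega

lemma w_zero : w 0 = 1 := by rw [w]

lemma w_even (n : ℕ) : w (2*n) = w n := by
  rcases Nat.eq_zero_or_pos n with h | h
  · subst h; rfl
  · obtain ⟨m, hm⟩ : ∃ m, 2*n = m+1 := ⟨2*n-1, by omega⟩
    rw [hm, w, ← hm]
    have h1 : ¬ (2*n % 2 = 1) := by omega
    have h2 : 2*n/2 = n := by omega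
    rw [if_neg h1, h2, one_mul]

lemma w_odd (n : ℕ) : w (2*n+1) = 3 * w n := by
  rw [w]
  have h1 : (2*n+1) % 2 = 1 := by omega
  have h2 : (2*n+1)/2 = n := by omega
  rw [if_pos h1, h2]

/-- The partial sums. -/
def G (N : ℕ) : ℕ := ∑ i ∈ Finset.range N, w i

lemma G_zero : G 0 = 0 := by simp [G]
lemma G_succ (n : ℕ) : G (n+1) = G n + w n := by simp [G, Finset.sum_range_succ]
lemma G_one : G 1 = 1 := by rw [show (1:ℕ) = 0+1 from rfl, G_succ, G_zero, w_zero]

lemma G_even (k : ℕ) : G (2*k) = 4 * G k := by
  induction k with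
  | zero => simp [G_zero]
  | succ k ih =>
    rw [show 2*(k+1) = (2*k+1)+1 by ring, G_succ, G_succ, ih, w_even, w_odd, G_succ]; ring

lemma G_odd (k : ℕ) : G (2*k+1) = G (k+1) + 3 * G k := by
  rw [G_succ, G_even, w_even, G_succ]; ring

lemma G_mono {a b : ℕ} (h : a ≤ b) : G a ≤ G b := by
  unfold G
  exact Finset.sum_le_sum_of_subset (by simpa using h)

lemma G_le_sq (n : ℕ) : G n ≤ n^2 := by
  induction n using Nat.strong_induction_on with
  | _ n ih =>
    rcases Nat.even_or_odd' n with ⟨k, hk | hk⟩
    · rcases Nat.eq_zero_or_pos k with h | h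
      · subst h; subst hk; simp [G_zero]
      · have := ih k (by omega)
        rw [hk, G_even]; nlinarith
    · rcases Nat.eq_zero_or_pos k with h | h
      · subst h; subst hk; simp [G_one]
      · have h1 := ih k (by omega)
        have h2 := ih (k+1) (by omega)
        rw [hk, G_odd]; nlinarith

/-- the two-point inequality -/
lemma G_two_point : ∀ (s a b : ℕ), a + b ≤ s → b ≤ a → G a + 3 * G b ≤ G (a+b) := by
  intro s
  induction s with
  | zero =>
    intro a b h1 _
    have ha : a = 0 := by omega
    have hb : b = 0 := by omega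
    subst ha; subst hb; simp [G_zero]
  | succ s ih =>
    intro a b hs hba
    rcases Nat.even_or_odd' a with ⟨x, hx | hx⟩ <;> rcases Nat.even_or_odd' b with ⟨y, hy | hy⟩
    · -- even even
      rcases Nat.eq_zero_or_pos x with h | h
      · have hy0 : y = 0 := by omega
        subst h; subst hy0; subst hx; subst hy; simp [G_zero]
      · have := ih x y (by omega) (by omega)
        rw [hx, hy, show 2*x+2*y = 2*(x+y) by ring, G_even, G_even, G_even]; omega
    · -- a even, b odd
      have hyx : y + 1 ≤ x := by omega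
      have h1 := ih x (y+1) (by omega) (by omega)
      have h2 := ih x y (by omega) (by omega)
      rw [hx, hy, show 2*x+(2*y+1) = 2*(x+y)+1 by ring, G_even, G_odd, G_odd]
      rw [show x + (y+1) = x+y+1 by ring] at h1
      omega
    · -- a odd, b even
      rcases Nat.eq_zero_or_pos x with h | h
      · have hy0 : y = 0 := by omega
        subst h; subst hy0; subst hx; subst hy; simp [G_zero, G_one]
      · rcases Nat.eq_zero_or_pos y with h0 | h0
        · subst h0; subst hy; simp [G_zero]
        · have h1 := ih (x+1) y (by omega) (by omega)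
          have h2 := ih x y (by omega) (by omega)
          rw [hx, hy, show 2*x+1+2*y = 2*(x+y)+1 by ring, G_even, G_odd, G_odd]
          rw [show x + 1 + y = x+y+1 by ring] at h1
          omega
    · -- both odd
      rcases Nat.lt_or_ge y x with hlt | hge
      · have h1 := ih (x+1) y (by omega) (by omega)
        have h2 := ih x (y+1) (by omega) (by omega)
        have h3 : G y ≤ G (y+1) := G_mono (by omega)
        rw [hx, hy, show 2*x+1+(2*y+1) = 2*(x+y+1) by ring, G_even, G_odd, G_odd]
        rw [show x + 1 + y = x+y+1 by ring] at h1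
        rw [show x + (y+1) = x+y+1 by ring] at h2
        omega
      · have hxy : y = x := by omega
        subst hxy
        have h1 : G (y+y+1) = G (y+1) + 3 * G y := by rw [show y+y+1 = 2*y+1 by ring, G_odd]
        rw [hx, hy, show 2*y+1+(2*y+1) = 2*(y+y+1) by ring, G_even, G_odd, h1]
        omega

lemma G_two_point' {a b : ℕ} (h : b ≤ a) : G a + 3 * G b ≤ G (a+b) :=
  G_two_point (a+b) a b le_rfl h

lemma G_pow_add (d : ℕ) : ∀ u, u ≤ 2^d → G (2^d + u) = 4^d + 3 * G u := by
  induction d with
  | zero =>
    intro u hu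
    have : u = 0 ∨ u = 1 := by simp at hu; omega
    rcases this with h | h
    · subst h; simp [G_zero, G_one]
    · subst h
      have : G 2 = 4 := by
        have := G_even 1
        rw [G_one] at this; simpa using this
      simp [this, G_one]
  | succ d ih =>
    intro u hu
    have hp : 2^(d+1) = 2 * 2^d := by ring
    rcases Nat.even_or_odd' u with ⟨k, hk | hk⟩
    · have h := ih k (by omega)
      rw [hp, hk, show 2*2^d+2*k = 2*(2^d+k) by ring, G_even, G_even, h]; ring
    · have h1 := ih k (by omega)
      have h2 := ih (k+1) (by omega)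
      rw [hp, hk, show 2*2^d+(2*k+1) = 2*(2^d+k)+1 by ring, G_odd, G_odd, h1,
        show 2^d+k+1 = 2^d+(k+1) by ring, h2]; ring

end Pool.Agent.Q254.CrossSp
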