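import Mathlib
import Pool.Agent.Q254.CrossSp.Gfun

/-!
Real bounds for `G` and the numerical inequality.
-/

namespace Pool.Agent.Q254.CrossSp

/-- (g1) -/
lemma G_bound1 (d u : ℕ) (hu : u ≤ 2^d) :
    (G (2^d+u) : ℝ) ≤ ((2:ℝ)^d)^2 + 3 * (u:ℝ)^2 := by
  have h := G_pow_add d u hu
  have h2 := G_le_sq u
  have h3 : G (2^d+u) ≤ 4^d + 3 * u^2 := by omega
  have h4 : ((G (2^d+u) : ℕ) : ℝ) ≤ ((4^d + 3 * u^2 : ℕ) : ℝ) := by exact_mod_cast h3
  have h5 : (4:ℝ)^d = ((2:ℝ)^d)^2 := by rw [← pow_mul, mul_comm, pow_mul]; norm_num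
  push_cast at h4
  rw [h5] at h4
  exact h4

/-- the quadratic bound below the power of two -/
lemma G_bound_quad (d x : ℕ) (hx : x ≤ 2^d) :
    (G x : ℝ) ≤ ((2:ℝ)^d)^2 - 3 * (2:ℝ)^d * x + 3 * (x:ℝ)^2 := by
  rcases d with _ | d
  · have : x = 0 ∨ x = 1 := by simp at hx; omega
    rcases this with h | h
    · subst h; simp [G_zero]
    · subst h; simp [G_one]
  · have hp : (2:ℝ)^(d+1) = 2 * 2^d := by ring
    have hp' : 2^(d+1) = 2 * 2^d := by ring
    have hK : (0:ℝ) < 2^d := by positivity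
    rcases Nat.le_total x (2^d) with h | h
    · have h1 : (G x : ℝ) ≤ (x:ℝ)^2 := by exact_mod_cast G_le_sq x
      have h2 : (x:ℝ) ≤ 2^d := by exact_mod_cast h
      rw [hp]
      have h3 : 0 ≤ (2*2^d - (x:ℝ)) * (2^d - (x:ℝ)) := by
        apply mul_nonneg <;> linarith
      nlinarith
    · obtain ⟨y, rfl⟩ : ∃ y, x = 2^d + y := ⟨x - 2^d, by omega⟩
      have hy : y ≤ 2^d := by omega
      have h1 := G_bound1 d y hy
      rw [hp]
      push_cast
      nlinarith

/-- (g2) -/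
lemma G_bound2 (d v : ℕ) (hv : v ≤ 2^d) :
    (G (2*2^d - v) : ℝ) ≤ 4*((2:ℝ)^d)^2 - 9 * (2:ℝ)^d * v + 9 * (v:ℝ)^2 := by
  have h1 : 2*2^d - v = 2^d + (2^d - v) := by omega
  have h2 := G_pow_add d (2^d - v) (by omega)
  have h3 := G_bound_quad d (2^d - v) (by omega)
  have h4 : ((2^d - v : ℕ) : ℝ) = 2^d - v := by
    rw [Nat.cast_sub hv]; push_cast; ring
  rw [h4] at h3
  rw [h1, h2]
  have h5 : (4:ℝ)^d = ((2:ℝ)^d)^2 := by rw [← pow_mul, mul_comm, pow_mul]; norm_num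
  push_cast
  rw [h5]
  nlinarith

/-- (g3) -/
lemma G_bound3 (d : ℕ) : ∀ v : ℕ, v ≤ 2^d →
    (G (2*2^d - v) : ℝ) ≤ 4*((2:ℝ)^d)^2 - 3 * (2:ℝ)^d * Real.sqrt ((2:ℝ)^d * v) := by
  induction d with
  | zero =>
    intro v hv
    have : v = 0 ∨ v = 1 := by simp at hv; omega
    rcases this with h | h
    · subst h
      have : G 2 = 4 := by
        have := G_even 1
        rw [G_one] at this; simpa using this
      simp [this]
    · subst h
      simp [G_one]; norm_num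
  | succ d ih =>
    intro v hv
    have hp : (2:ℝ)^(d+1) = 2 * 2^d := by ring
    have hp' : 2^(d+1) = 2 * 2^d := by ring
    have hK : (0:ℝ) < 2^d := by positivity
    have h1 : 2*2^(d+1) - v = 2^(d+1) + (2^(d+1) - v) := by omega
    have h2 := G_pow_add (d+1) (2^(d+1) - v) (by omega)
    have h5 : (4:ℝ)^d = ((2:ℝ)^d)^2 := by rw [← pow_mul, mul_comm, pow_mul]; norm_num
    have h6 : (4:ℝ)^(d+1) = 4 * ((2:ℝ)^d)^2 := by rw [pow_succ, h5]; ring
    rw [h1, h2]
    push_cast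
    rw [h6, hp]
    set K : ℝ := (2:ℝ)^d with hKdef
    have hv0 : (0:ℝ) ≤ v := Nat.cast_nonneg v
    have hvK : (v:ℝ) ≤ 2*K := by
      have : (v:ℝ) ≤ ((2^(d+1) : ℕ) : ℝ) := by exact_mod_cast hv
      rw [hp'] at this; push_cast at this; exact this
    set y := Real.sqrt (2*K*v) with hy
    have hyy : y*y = 2*K*v := Real.mul_self_sqrt (by positivity)
    have hy0 : 0 ≤ y := Real.sqrt_nonneg _
    rcases Nat.le_total v (2^d) with h | h
    · have h7 := ih v h
      rw [hp']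
      -- sqrt (K v)
      set z := Real.sqrt (K*v) with hz
      have hzz : z*z = K*v := Real.mul_self_sqrt (by positivity)
      have hz0 : 0 ≤ z := Real.sqrt_nonneg _
      -- y = sqrt 2 * z, need 9 z >= 6 y i.e. 3z >= 2y
      have hzy : 2*y ≤ 3*z := by
        nlinarith [sq_nonneg (2*y-3*z), mul_nonneg hy0 hz0]
      nlinarith [mul_le_mul_of_nonneg_left hzy hK.le]
    · -- v ≥ 2^d
      have hvK2 : K ≤ v := by
        have : ((2^d : ℕ) : ℝ) ≤ v := by exact_mod_cast h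
        push_cast at this; exact this
      have h8 : (G (2^(d+1) - v) : ℝ) ≤ (2*K - v)^2 := by
        have h9 : (G (2^(d+1) - v) : ℝ) ≤ (((2^(d+1) - v : ℕ)) : ℝ)^2 := by
          exact_mod_cast G_le_sq _
        rw [Nat.cast_sub hv] at h9
        push_cast at h9
        rw [hp] at h9
        exact h9
      -- need: 4K² + 3(2K-v)² ≤ 16K² - 6K y  ;  i.e. 6 K y ≤ 12K² - 3(2K-v)² = 3 v (4K - v)
      have h10 : 2*K*y ≤ v*(4*K - v) := by
        -- y*y = 2Kv ; v = y²/(2K); claim 2K y ≤ v (4K - v)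
        have hyK : K ≤ y := by
          nlinarith
        have hy2K : y ≤ 2*K := by
          nlinarith
        -- multiply by (2K)^2 >0 : (2K)^3 y ≤ y² (8K² - y²)  i.e. 8K³ ≤ y(8K² - y²) 
        have hvy : (v:ℝ) = y*y/(2*K) := by field_simp; linarith
        rw [hvy]
        have h11 : 8*K^3 ≤ y*(8*K^2 - y^2) := by
          -- y³ - 8K² y + 8K³ = (y-2K)(y²+2Ky-4K²) ≤ 0
          have h12 : 0 ≤ y^2 + 2*K*y - 4*K^2 := by nlinarith
          nlinarith [mul_nonneg (sub_nonneg.2 hy2K) h12]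
        have h13 : 0 < 2*K := by positivity
        rw [show y*y/(2*K) * (4*K - y*y/(2*K)) = (y*y*(8*K^2 - y^2))/(4*K^2) by field_simp; ring]
        rw [le_div_iff₀ (by positivity)]
        nlinarith [mul_le_mul_of_nonneg_left h11 hy0]
      nlinarith
  
end Pool.Agent.Q254.CrossSp
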