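import Mathlib
import Pool.Agent.Q254.CrossSp.Num

/-!
The numerical inequality.
-/

namespace Pool.Agent.Q254.CrossSp

lemma quad_endpoint {A B C M s T : ℝ} (hA : 0 ≤ A) (hs : 0 ≤ s) (hsM : s ≤ M)
    (h0 : C < T) (hM : A * M^2 - B * M + C < T) : A * s^2 - B * s + C < T := by
  rcases le_or_gt (A * M - B) 0 with h | h
  · have : A * s^2 ≤ A * M * s := by nlinarith [mul_nonneg (mul_nonneg hA hs) (sub_nonneg.2 hsM)]
    nlinarith
  · have : A * s^2 ≤ A * M * s := by nlinarith [mul_nonneg (mul_nonneg hA hs) (sub_nonneg.2 hsM)]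
    nlinarith

lemma poly_const {w : ℝ} (h1 : 1/10 ≤ w) (h2 : w ≤ 131/200) :
    (4 - 9*w + 9*w^2) + (4/17)*(1+9*w) < 3767/1000 := by
  nlinarith [mul_nonneg (sub_nonneg.2 h1) (sub_nonneg.2 h2)]

lemma poly_e1 {w : ℝ} (h1 : 1/10 ≤ w) (h2 : w ≤ 7/17) :
    (1 + 3*((1+9*w)/8)^2) * (4 - 9*w + 9*w^2) < 3767/1000 := by
  have h := mul_nonneg (sub_nonneg.2 h1) (sub_nonneg.2 h2)
  nlinarith [mul_nonneg h (sq_nonneg (w - 1/5)), mul_nonneg h (sub_nonneg.2 h1), mul_nonneg h (sub_nonneg.2 h2), mul_nonneg h h]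

lemma poly_e2 {w : ℝ} (h1 : 7/17 ≤ w) (h2 : w ≤ 131/200) :
    (1 + 3*(1-w)^2) * (4 - 9*w + 9*w^2) + (4/17)*(17*w-7) < 3767/1000 := by
  have h := mul_nonneg (sub_nonneg.2 h1) (sub_nonneg.2 h2)
  nlinarith [mul_nonneg h (sq_nonneg (w - 3/4)), mul_nonneg h (sub_nonneg.2 h1), mul_nonneg h (sub_nonneg.2 h2), mul_nonneg h h]

lemma poly_main {s w : ℝ} (hs : 0 ≤ s) (h1 : 1/10 ≤ w) (h2 : w ≤ 131/200) (hsw : s + w ≤ 1)
    (hL : 8 * s ≤ 1 + 9*w) :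
    (1 + 3*s^2) * (4 - 9*w + 9*w^2) + (4/17)*(1+9*w-8*s) < 3767/1000 := by
  have hP : 0 ≤ 4 - 9*w + 9*w^2 := by nlinarith [sq_nonneg (w - 1/2)]
  have h0 := poly_const h1 h2
  have key : ∀ M : ℝ, s ≤ M → 3*(4 - 9*w + 9*w^2) * M^2 - (32/17) * M + ((4 - 9*w + 9*w^2) + (4/17)*(1+9*w)) < 3767/1000 →
      (1 + 3*s^2) * (4 - 9*w + 9*w^2) + (4/17)*(1+9*w-8*s) < 3767/1000 := by
    intro M hM hh
    have := quad_endpoint (A := 3*(4 - 9*w + 9*w^2)) (B := 32/17)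
      (C := (4 - 9*w + 9*w^2) + (4/17)*(1+9*w)) (M := M) (s := s) (T := 3767/1000)
      (by positivity) hs hM h0 hh
    linarith
  rcases le_total w (7/17) with h | h
  · apply key ((1+9*w)/8) (by linarith)
    have := poly_e1 h1 h
    linarith
  · apply key (1-w) (by linarith)
    have := poly_e2 h h2
    linarith

end Pool.Agent.Q254.CrossSp
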