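import Mathlib
import Pool.Agent.Q254.CrossSp.Ineq

/-!
The numerical inequality, final form.
-/

namespace Pool.Agent.Q254.CrossSp

lemma le_of_sq_le_sq' {a b : ℝ} (h : a^2 ≤ b^2) (hb : 0 ≤ b) : a ≤ b := by
  by_contra hcon
  have : b < a := not_le.1 hcon
  nlinarith

lemma poly_case1 {y : ℝ} (hy : 0 < y) (hy2 : y^2 ≤ 1/10) :
    (1 + 12*y^4) * (4 - 3*y) + (151/100)*y < 4 := by
  have h1 : y ≤ 317/1000 := by nlinarith
  -- 48 y^4 - 36 y^5 < 1.49 y ; i.e. 12 y^3 (4-3y) < 1.49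
  have h2 : 12*y^3*(4-3*y) ≤ 12*(y/10)*(4-3*y) := by
    have : y^3 ≤ y/10 := by nlinarith
    have h4 : 0 ≤ 4 - 3*y := by linarith
    nlinarith
  have h3 : 12*(y/10)*(4-3*y) < 149/100 := by nlinarith [sq_nonneg (y - 317/1000)]
  have h5 : (1 + 12*y^4) * (4 - 3*y) + (151/100)*y = 4 + y * (12*y^3*(4-3*y) - 149/100) := by ring
  rw [h5]
  nlinarith

lemma pow_cmp4 (d : ℕ) (hd : 4 ≤ d) : (10:ℝ)*100^d ≤ (3728/1000)*128^d := by
  obtain ⟨k, rfl⟩ := Nat.exists_eq_add_of_le hd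
  induction k with
  | zero => norm_num
  | succ k ih =>
    have := ih (by omega)
    rw [show 4 + (k+1) = (4+k)+1 by ring, pow_succ, pow_succ]
    have h : (0:ℝ) < 128^(4+k) := by positivity
    nlinarith

lemma pow_cmp6 (d : ℕ) (hd : 6 ≤ d) : (10:ℝ)*100^d ≤ (22801/10000)*128^d := by
  obtain ⟨k, rfl⟩ := Nat.exists_eq_add_of_le hd
  induction k with
  | zero => norm_num
  | succ k ih =>
    have := ih (by omega)
    rw [show 6 + (k+1) = (6+k)+1 by ring, pow_succ, pow_succ]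
    have h : (0:ℝ) < 128^(6+k) := by positivity
    nlinarith

lemma pow128 (d : ℕ) : (128:ℝ)^d = ((2:ℝ)^d)^7 := by
  rw [← pow_mul, mul_comm, pow_mul]; norm_num

lemma pow100 (d : ℕ) : (100:ℝ)^d = ((10:ℝ)^d)^2 := by
  rw [← pow_mul, mul_comm, pow_mul]; norm_num

lemma w_bound {K w a b : ℝ} (hK : 16 ≤ K) (hb0 : 0 ≤ b) (ha : a ≤ (2-w)*K)
    (hb : b ≤ (2-w)*K) (hprod : 2*K^2+2 ≤ a*b+3*K) : w ≤ 131/200 := by
  by_contra hcon
  have hc : 131/200 < w := not_le.1 hcon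
  have h4 : (2 - w)*K ≤ (269/200)*K := by nlinarith
  have ha' : a ≤ (269/200)*K := ha.trans h4
  have hb' : b ≤ (269/200)*K := hb.trans h4
  have h3 : a*b ≤ ((269/200)*K)*((269/200)*K) := mul_le_mul ha' hb' hb0 (by linarith)
  nlinarith

theorem num' (d α β r t : ℕ) (hr : 1 ≤ r) (ht : 1 ≤ t) (hab : α ≤ β)
    (hsum : α+β+r+t+2 ≤ 3*2^d) (hprod : 2*(2^d)^2+2 ≤ α*β+3*2^d) :
    (G (α+r):ℝ) * G (β+r) + Real.sqrt (10*t)*10^d < 4*((2:ℝ)^d)^4 := by
  have hsumR : (α:ℝ)+β+r+t+2 ≤ 3*2^d := by exact_mod_cast hsum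
  have hprodR : 2*((2:ℝ)^d)^2+2 ≤ α*β+3*2^d := by exact_mod_cast hprod
  have hrR : (1:ℝ) ≤ r := by exact_mod_cast hr
  have htR : (1:ℝ) ≤ t := by exact_mod_cast ht
  have habR : (α:ℝ) ≤ β := by exact_mod_cast hab
  have hα0 : (0:ℝ) ≤ α := Nat.cast_nonneg α
  have hβ0 : (0:ℝ) ≤ β := Nat.cast_nonneg β
  -- d ≥ 4
  have hd4 : 4 ≤ d := by
    by_contra hcon
    have hd3 : d ≤ 3 := by omega
    have h1 : ((α:ℝ)+β) ≤ 3*2^d - 4 := by linarith
    have h2 : 4*((α:ℝ)*β) ≤ ((α:ℝ)+β)^2 := by nlinarith [sq_nonneg ((α:ℝ)-β)]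
    have h3 : ((α:ℝ)+β)^2 ≤ (3*2^d-4)^2 := by
      apply pow_le_pow_left₀ (by positivity) h1
    have h4 : 0 ≤ ((2:ℝ)^d)^2 - 12*2^d + 8 := by nlinarith
    clear h1 h2 h3 hprodR hsumR hprod hsum
    interval_cases d <;> norm_num at h4
  set K : ℝ := (2:ℝ)^d with hK
  have hK16 : 16 ≤ K := by
    have : (2:ℝ)^4 ≤ 2^d := pow_le_pow_right₀ (by norm_num) hd4
    rw [hK]; linarith
  have hK0 : 0 < K := by linarith
  -- α > K+1
  have hαK : K + 1 < α := by
    by_contra hcon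
    have hle : (α:ℝ) ≤ K+1 := not_lt.1 hcon
    have hb : (β:ℝ) ≤ 3*K-4-α := by linarith
    have h1 : (α:ℝ)*β ≤ α*(3*K-4-α) := mul_le_mul_of_nonneg_left hb hα0
    have h2 : 0 ≤ (K+1-α)*(2*K-5-α) := by
      apply mul_nonneg <;> linarith
    nlinarith
  -- naturals u, v
  have hKnat : ((2^d : ℕ) : ℝ) = K := by rw [hK]; push_cast; rfl
  have hαK' : 2^d + 2 ≤ α := by
    have : ((2^d + 1 : ℕ) : ℝ) < α := by push_cast; exact hαK
    have := Nat.cast_lt.1 this
    omega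
  obtain ⟨u, hu⟩ : ∃ u, α + r = 2^d + u := ⟨α + r - 2^d, by omega⟩
  obtain ⟨v, hv⟩ : ∃ v, β + r + v = 2*2^d := ⟨2*2^d - (β + r), by omega⟩
  have hv4 : t + 4 ≤ v := by omega
  have huv : u + v ≤ 2^d := by omega
  have hβ : β + r = 2*2^d - v := by omega
  have huR : (α:ℝ) + r = K + u := by rw [← hKnat]; exact_mod_cast hu
  have hvR : (β:ℝ) + r + v = 2*K := by rw [← hKnat]; exact_mod_cast hv
  have hv4R : (t:ℝ) + 4 ≤ v := by exact_mod_cast hv4
  have huvR : (u:ℝ) + v ≤ K := by rw [← hKnat]; exact_mod_cast huv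
  have hu0 : (0:ℝ) ≤ u := Nat.cast_nonneg u
  have hv0 : (0:ℝ) < v := by linarith
  -- E1
  have hαle : (α:ℝ) ≤ K - 2 - t + v := by linarith
  have hβle : (β:ℝ) ≤ 2*K - 2 - t - u := by linarith
  have hE1 : 2*K^2 + 2 ≤ (K-2-t+v)*(2*K-2-t-u) + 3*K := by
    have := mul_le_mul hαle hβle hβ0 (by linarith)
    linarith
  -- (L)
  have hL : 8*(u:ℝ) + 17*t + 10 ≤ K + 9*v := by
    by_contra hcon
    have hc : K + 9*v < 8*(u:ℝ) + 17*t + 10 := not_le.1 hcon
    set V : ℝ := v - t - 2 with hV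
    set U : ℝ := u + t + 2 with hU
    have hV0 : 2 ≤ V := by rw [hV]; linarith
    have h1 : K - 2 - t + v = K + V := by rw [hV]; ring
    have h2 : 2*K - 2 - t - u = 2*K - U := by rw [hU]; ring
    rw [h1, h2] at hE1
    have h3 : K + 9*V + 24 < 8*U := by rw [hV, hU]; linarith
    have h4 : 0 < (8*U - (K+9*V+24))*(K+V) := by
      apply mul_pos <;> linarith
    have h5 := sq_nonneg (3*V-K)
    clear_value U V
    clear hsum hprod hprodR hsumR hu hv huR hvR huvR hαle hβle hαK hαK' hab habR hc hcon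
    nlinarith
  have hu2v : (u:ℝ) ≤ 2*v := by
    by_contra hcon
    have hc : 2*(v:ℝ) < u := not_le.1 hcon
    set V : ℝ := v - t - 2 with hV
    set U : ℝ := u + t + 2 with hU
    have hV0 : 2 ≤ V := by rw [hV]; linarith
    have h1 : K - 2 - t + v = K + V := by rw [hV]; ring
    have h2 : 2*K - 2 - t - u = 2*K - U := by rw [hU]; ring
    rw [h1, h2] at hE1
    have h3 : 2*V + 3 < U := by rw [hV, hU]; linarith
    have h4 : 0 < (U - (2*V+3))*(K+V) := by
      apply mul_pos <;> linarith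
    clear_value U V
    clear hL hsum hprod hprodR hsumR hu hv huR hvR huvR hαle hβle hαK hαK' hab habR hc hcon
    nlinarith
  have hg1 := G_bound1 d u (by omega)
  rw [← hu] at hg1
  have hg2 := G_bound2 d v (by omega)
  have hg3 := G_bound3 d v (by omega)
  rw [← hβ] at hg2 hg3
  have hGp0 : (0:ℝ) ≤ G (α+r) := Nat.cast_nonneg _
  have hGq0 : (0:ℝ) ≤ G (β+r) := Nat.cast_nonneg _
  set T : ℝ := Real.sqrt (10*t)*10^d with hT
  have hT0 : 0 ≤ T := by rw [hT]; positivity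
  have hTsq : T^2 = 10*t*100^d := by
    rw [hT, mul_pow, Real.sq_sqrt (by positivity), pow100]
  rcases le_or_gt (10*(v:ℝ)) K with hcase | hcase
  · -- case 1: 10 v ≤ K
    have hd6 : 6 ≤ d := by
      by_contra hcon
      have hd5 : d ≤ 5 := by omega
      have : K ≤ 2^5 := by rw [hK]; exact pow_le_pow_right₀ (by norm_num) hd5
      linarith
    set z : ℝ := Real.sqrt (K*v) with hz
    have hzz : z^2 = K*v := Real.sq_sqrt (by positivity)
    have hz0 : 0 < z := Real.sqrt_pos.2 (by positivity)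
    set y : ℝ := z/K with hy
    have hy0 : 0 < y := by rw [hy]; positivity
    have hzy : z = y*K := by rw [hy]; field_simp
    have hvy : (v:ℝ) = y^2*K := by
      have h := hzz
      rw [hzy] at h
      have h' : K * (y^2*K) = K * v := by linarith
      exact (mul_left_cancel₀ (ne_of_gt hK0) h').symm
    have hy2 : y^2 ≤ 1/10 := by
      have : y^2*K ≤ (1/10)*K := by linarith
      exact le_of_mul_le_mul_right this hK0
    -- bound on T
    have hTy : T ≤ (151/100)*y*K^4 := by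
      have h1 : T^2 ≤ ((151/100)*y*K^4)^2 := by
        rw [hTsq]
        have h2 := pow_cmp6 d hd6
        rw [pow128, ← hK] at h2
        have h3 : (t:ℝ) ≤ y^2*K := by linarith
        have h4 : (0:ℝ) < 100^d := by positivity
        calc 10*(t:ℝ)*100^d = t*(10*100^d) := by ring
          _ ≤ (y^2*K)*(10*100^d) := by
            apply mul_le_mul_of_nonneg_right h3 (by positivity)
          _ ≤ (y^2*K)*((22801/10000)*K^7) := by
            apply mul_le_mul_of_nonneg_left h2 (by positivity)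
          _ = ((151/100)*y*K^4)^2 := by ring
      exact le_of_sq_le_sq' h1 (by positivity)
    have hpoly := poly_case1 hy0 hy2
    have hp : (G (α+r):ℝ) ≤ K^2*(1+12*y^4) := by
      have h1 : (u:ℝ)^2 ≤ (2*v)^2 := pow_le_pow_left₀ hu0 hu2v 2
      rw [hvy] at h1
      have h2 : (2*(y^2*K))^2 = 4*y^4*K^2 := by ring
      rw [h2] at h1
      linarith
    have hq : (G (β+r):ℝ) ≤ K^2*(4-3*y) := by
      have h1 : 3*K*z = 3*y*K^2 := by rw [hzy]; ring
      linarith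
    have hpq : (G (α+r):ℝ) * G (β+r) ≤ (K^2*(1+12*y^4))*(K^2*(4-3*y)) :=
      mul_le_mul hp hq hGq0 (by positivity)
    have h9 : 0 < K^4 := by positivity
    calc (G (α+r):ℝ) * G (β+r) + T ≤ (K^2*(1+12*y^4))*(K^2*(4-3*y)) + (151/100)*y*K^4 := by linarith
      _ = K^4*((1 + 12*y^4) * (4 - 3*y) + (151/100)*y) := by ring
      _ < K^4*4 := by exact mul_lt_mul_of_pos_left hpoly h9
      _ = 4*K^4 := by ring
  · -- case 2
    set s : ℝ := u/K with hs
    set w : ℝ := v/K with hw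
    have hus : (u:ℝ) = s*K := by rw [hs]; field_simp
    have hvw : (v:ℝ) = w*K := by rw [hw]; field_simp
    have hs0 : 0 ≤ s := by rw [hs]; positivity
    have hw1 : 1/10 ≤ w := by
      have : (1/10)*K ≤ w*K := by linarith
      exact le_of_mul_le_mul_right this hK0
    have hsw : s + w ≤ 1 := by
      have : (s+w)*K ≤ 1*K := by linarith
      exact le_of_mul_le_mul_right this hK0
    have hw2 : w ≤ 131/200 := by
      have h1 : (α:ℝ) ≤ (2 - w)*K := by linarith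
      have h2 : (β:ℝ) ≤ (2 - w)*K := by linarith
      exact w_bound hK16 hβ0 h1 h2 hprodR
    have hL' : 8*s ≤ 1 + 9*w := by
      have : (8*s)*K ≤ (1+9*w)*K := by linarith
      exact le_of_mul_le_mul_right this hK0
    have hmain := poly_main hs0 hw1 hw2 hsw hL'
    have hp : (G (α+r):ℝ) ≤ K^2*(1+3*s^2) := by
      rw [hus] at hg1
      linarith
    have hq : (G (β+r):ℝ) ≤ K^2*(4-9*w+9*w^2) := by
      rw [hvw] at hg2
      linarith
    have hpq : (G (α+r):ℝ) * G (β+r) ≤ (K^2*(1+3*s^2))*(K^2*(4-9*w+9*w^2)) :=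
      mul_le_mul hp hq hGq0 (by positivity)
    have hTb : T ≤ 4*K^3*t + (233/1000)*K^4 := by
      have h2 := pow_cmp4 d hd4
      rw [pow128, ← hK] at h2
      have h1 : T^2 ≤ 4*(4*K^3*t)*((233/1000)*K^4) := by
        rw [hTsq]
        calc 10*(t:ℝ)*100^d = t*(10*100^d) := by ring
          _ ≤ t*((3728/1000)*K^7) := by
            apply mul_le_mul_of_nonneg_left h2 (by positivity)
          _ = 4*(4*K^3*t)*((233/1000)*K^4) := by ring
      have h3 : T^2 ≤ (4*K^3*t + (233/1000)*K^4)^2 := by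
        nlinarith [sq_nonneg (4*K^3*t - (233/1000)*K^4)]
      exact le_of_sq_le_sq' h3 (by positivity)
    have hTb2 : T ≤ K^4*((4/17)*(1+9*w-8*s) + 233/1000) := by
      have h1 : (t:ℝ) ≤ K*((1+9*w-8*s)/17) := by
        rw [hus, hvw] at hL
        linarith
      have h2 : 4*K^3*(t:ℝ) ≤ 4*K^3*(K*((1+9*w-8*s)/17)) :=
        mul_le_mul_of_nonneg_left h1 (by positivity)
      calc T ≤ 4*K^3*t + (233/1000)*K^4 := hTb
        _ ≤ 4*K^3*(K*((1+9*w-8*s)/17)) + (233/1000)*K^4 := by linarith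
        _ = _ := by ring
    have h9 : 0 < K^4 := by positivity
    calc (G (α+r):ℝ) * G (β+r) + T ≤ (K^2*(1+3*s^2))*(K^2*(4-9*w+9*w^2)) + K^4*((4/17)*(1+9*w-8*s) + 233/1000) := by linarith
      _ = K^4*(((1 + 3*s^2) * (4 - 9*w + 9*w^2) + (4/17)*(1+9*w-8*s)) + 233/1000) := by ring
      _ < K^4*4 := by
        apply mul_lt_mul_of_pos_left _ h9
        linarith
      _ = 4*K^4 := by ring

theorem num (d α β r t : ℕ) (hr : 1 ≤ r) (ht : 1 ≤ t)
    (hsum : α+β+r+t+2 ≤ 3*2^d) (hprod : 2*(2^d)^2+2 ≤ α*β+3*2^d) :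
    (G (α+r):ℝ) * G (β+r) + Real.sqrt (10*t)*10^d < 4*((2:ℝ)^d)^4 := by
  rcases Nat.le_total α β with h | h
  · exact num' d α β r t hr ht h hsum hprod
  · have := num' d β α r t hr ht h (by omega) (by rw [mul_comm β α]; exact hprod)
    rw [mul_comm (G (α+r) : ℝ)]
    exact this

end Pool.Agent.Q254.CrossSp
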