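import Mathlib
import Pool.Agent.Q254.CrossSp.Final

/-!
Weighted counting for down-sets and the bound on the number of unions.
-/

open Finset

namespace Pool.Agent.Q254.CrossSp

variable {α : Type*} [DecidableEq α]

/-- extremality: a down-set `P` satisfies `∑_{S∈P} 3^|S| ≤ G |P|`. -/
theorem weight_le_G (V : Finset α) : ∀ P : Finset (Finset α), (∀ S ∈ P, S ⊆ V) →
    (∀ S ∈ P, ∀ T, T ⊆ S → T ∈ P) → ∑ S ∈ P, 3^(#S) ≤ G (#P) := by
  induction V using Finset.induction_on with
  | empty =>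
    intro P hP _
    have h1 : ∑ S ∈ P, 3^(#S) = #P := by
      rw [Finset.card_eq_sum_ones]
      apply Finset.sum_congr rfl
      intro S hS
      have : S = ∅ := Finset.subset_empty.1 (hP S hS)
      simp [this]
    have h2 : P ⊆ {∅} := by
      intro S hS
      rw [Finset.mem_singleton]
      exact Finset.subset_empty.1 (hP S hS)
    have h3 : #P ≤ 1 := by simpa using Finset.card_le_card h2
    rw [h1]
    rcases Nat.eq_zero_or_pos (#P) with h | h
    · rw [h, G_zero]
    · have : #P = 1 := by omega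
      rw [this, G_one]
  | insert a V ha ih =>
    intro P hP hlow
    set P0 := P.filter (fun S => a ∉ S) with hP0
    set P1 := (P.filter (fun S => a ∈ S)).image (fun S => S.erase a) with hP1
    have hinj : Set.InjOn (fun S : Finset α => S.erase a) (P.filter (fun S => a ∈ S) : Finset (Finset α)) := by
      intro S hS T hT h
      simp only [Finset.coe_filter, Set.mem_ofPred_eq] at hS hT
      have h' : S.erase a = T.erase a := h
      rw [← Finset.insert_erase hS.2, ← Finset.insert_erase hT.2, h']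
    have hc1 : #P1 = #(P.filter (fun S => a ∈ S)) := Finset.card_image_of_injOn hinj
    have hc : #P = #P0 + #P1 := by
      rw [hc1, hP0, add_comm, Finset.card_filter_add_card_filter_not]
    have hsum1 : ∑ S ∈ P.filter (fun S => a ∈ S), 3^(#S) = 3 * ∑ S ∈ P1, 3^(#S) := by
      rw [hP1, Finset.sum_image hinj, Finset.mul_sum]
      apply Finset.sum_congr rfl
      intro S hS
      rw [Finset.mem_filter] at hS
      rw [← pow_succ', Finset.card_erase_add_one hS.2]
    have hsum : ∑ S ∈ P, 3^(#S) = ∑ S ∈ P0, 3^(#S) + 3 * ∑ S ∈ P1, 3^(#S) := by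
      rw [← hsum1, hP0, add_comm, Finset.sum_filter_add_sum_filter_not]
    have hsub : P1 ⊆ P0 := by
      intro S hS
      rw [hP1, Finset.mem_image] at hS
      obtain ⟨T, hT, rfl⟩ := hS
      rw [Finset.mem_filter] at hT
      rw [hP0, Finset.mem_filter]
      exact ⟨hlow T hT.1 _ (Finset.erase_subset _ _), Finset.notMem_erase _ _⟩
    have ih0 := ih P0 (by
      intro S hS
      rw [hP0, Finset.mem_filter] at hS
      exact (Finset.subset_insert_iff_of_notMem hS.2).1 (hP S hS.1)) (by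
      intro S hS T hT
      rw [hP0, Finset.mem_filter] at hS ⊢
      exact ⟨hlow S hS.1 T hT, fun h => hS.2 (hT h)⟩)
    have ih1 := ih P1 (by
      intro S hS
      have hS' := hsub hS
      rw [hP0, Finset.mem_filter] at hS'
      exact (Finset.subset_insert_iff_of_notMem hS'.2).1 (hP S hS'.1)) (by
      intro S hS T hT
      rw [hP1, Finset.mem_image] at hS ⊢
      obtain ⟨S', hS', rfl⟩ := hS
      rw [Finset.mem_filter] at hS'
      have haT : a ∉ T := fun h => by
        have := hT h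
        exact Finset.notMem_erase _ _ this
      refine ⟨insert a T, ?_, Finset.erase_insert haT⟩
      rw [Finset.mem_filter]
      refine ⟨hlow S' hS'.1 _ ?_, Finset.mem_insert_self _ _⟩
      rw [Finset.insert_subset_iff]
      exact ⟨hS'.2, hT.trans (Finset.erase_subset _ _)⟩)
    have h2 := G_two_point' (Finset.card_le_card hsub)
    rw [hsum, hc]
    calc ∑ S ∈ P0, 3^(#S) + 3 * ∑ S ∈ P1, 3^(#S) ≤ G (#P0) + 3 * G (#P1) := by omega
      _ ≤ G (#P0 + #P1) := h2

/-- the family of all unions -/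
def unions (A B : Finset (Finset α)) : Finset (Finset α) := (A ×ˢ B).image (fun p => p.1 ∪ p.2)

lemma mem_unions {A B : Finset (Finset α)} {S : Finset α} :
    S ∈ unions A B ↔ ∃ a ∈ A, ∃ b ∈ B, a ∪ b = S := by
  unfold unions
  rw [Finset.mem_image]
  constructor
  · rintro ⟨⟨a, b⟩, h, rfl⟩
    rw [Finset.mem_product] at h
    exact ⟨a, h.1, b, h.2, rfl⟩
  · rintro ⟨a, ha, b, hb, rfl⟩
    exact ⟨(a, b), Finset.mem_product.2 ⟨ha, hb⟩, rfl⟩

lemma card_unions_le (A B : Finset (Finset α)) : #(unions A B) ≤ #A * #B := by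
  unfold unions
  exact Finset.card_image_le.trans (by rw [Finset.card_product])

lemma sum_image_le' {ι κ : Type*} [DecidableEq κ] (s : Finset ι) (f : ι → κ) (g : κ → ℕ) :
    ∑ x ∈ s.image f, g x ≤ ∑ i ∈ s, g (f i) := by
  rw [← Finset.sum_fiberwise_of_maps_to (s := s) (t := s.image f) (g := f)
    (fun i hi => Finset.mem_image_of_mem f hi)]
  apply Finset.sum_le_sum
  intro x hx
  obtain ⟨i, hi, rfl⟩ := Finset.mem_image.1 hx
  have : g (f i) ≤ ∑ j ∈ s with f j = f i, g (f j) := by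
    apply Finset.single_le_sum (f := fun j => g (f j)) (fun _ _ => Nat.zero_le _)
    rw [Finset.mem_filter]
    exact ⟨hi, rfl⟩
  exact this

lemma weight_unions_le (A B : Finset (Finset α)) :
    ∑ S ∈ unions A B, 3^(#S) ≤ (∑ S ∈ A, 3^(#S)) * (∑ S ∈ B, 3^(#S)) := by
  unfold unions
  refine (sum_image_le' _ _ _).trans ?_
  rw [Finset.sum_mul_sum, ← Finset.sum_product']
  apply Finset.sum_le_sum
  intro p _
  rw [← pow_add]
  exact Nat.pow_le_pow_right (by norm_num) (Finset.card_union_le _ _)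

lemma two_pow_lemma (k i : ℕ) : 3 * 2^(i+k) ≤ 2^i + 2^(i+2*k+1) := by
  have h1 : 2^(i+k) = 2^i * 2^k := pow_add _ _ _
  have h2 : 2^(i+2*k+1) = 2^i * (2 * (2^k)^2) := by ring
  rw [h1, h2]
  have h3 : 3 * 2^k ≤ 1 + 2 * (2^k)^2 := by
    have : 1 ≤ 2^k := Nat.one_le_two_pow
    nlinarith
  calc 3 * (2^i * 2^k) = 2^i * (3 * 2^k) := by ring
    _ ≤ 2^i * (1 + 2 * (2^k)^2) := Nat.mul_le_mul_left _ h3
    _ = 2^i + 2^i * (2 * (2^k)^2) := by ring

lemma two_pow_sum {d i j : ℕ} (h : i + j = 2*d+1) : 3 * 2^d ≤ 2^i + 2^j := by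
  rcases Nat.le_total i d with hi | hi
  · obtain ⟨k, rfl⟩ := Nat.exists_eq_add_of_le hi
    have : j = i + 2*k+1 := by omega
    rw [this]
    exact two_pow_lemma k i
  · have hj : j ≤ d ∨ i = d := by omega
    rcases hj with hj | hj
    · obtain ⟨k, rfl⟩ := Nat.exists_eq_add_of_le hj
      have : i = j + 2*k+1 := by omega
      rw [this, add_comm (2^(j+2*k+1))]
      exact two_pow_lemma k j
    · have : j = i + 2*0+1 := by omega
      rw [this, hj]
      have := two_pow_lemma 0 d
      simpa using this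

lemma weight_univ (n : ℕ) : ∑ S : Finset (Fin n), 3^(#S) = 4^n := by
  have := Fintype.sum_pow_mul_eq_add_pow (Fin n) 3 1
  simpa using this

lemma sum_weight_sq_le {n : ℕ} (T : Finset (Finset (Fin n))) :
    (∑ S ∈ T, 3^(#S))^2 ≤ #T * 10^n := by
  refine (sq_sum_le_card_mul_sum_sq).trans ?_
  apply Nat.mul_le_mul_left
  have h1 : ∑ S ∈ T, (3^(#S))^2 = ∑ S ∈ T, 9^(#S) := by
    apply Finset.sum_congr rfl
    intro S _
    rw [show (9:ℕ) = 3^2 by norm_num, ← pow_mul, ← pow_mul, mul_comm]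
  rw [h1]
  have h2 : ∑ S ∈ T, 9^(#S) ≤ ∑ S : Finset (Fin n), 9^(#S) :=
    Finset.sum_le_sum_of_subset (Finset.subset_univ _)
  refine h2.trans (le_of_eq ?_)
  have := Fintype.sum_pow_mul_eq_add_pow (Fin n) 9 1
  simpa using this

/-- **Core theorem.**  For down-sets `P, Q` of subsets of a `(2d+1)`-set, neither contained in the
other, the family `J` of all unions `a ∪ b`, `a ∈ P \ Q`, `b ∈ Q \ P` misses at least
`3 * 2^d - 1` sets. -/
theorem core (d : ℕ) (P Q : Finset (Finset (Fin (2*d+1))))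
    (hP : ∀ S ∈ P, ∀ T, T ⊆ S → T ∈ P) (hQ : ∀ S ∈ Q, ∀ T, T ⊆ S → T ∈ Q)
    (hPQ : (P \ Q).Nonempty) (hQP : (Q \ P).Nonempty) :
    #(unions (P \ Q) (Q \ P)) + 3 * 2^d ≤ 2^(2*d+1) + 1 := by
  classical
  set J := unions (P \ Q) (Q \ P) with hJ
  set D := (Finset.univ : Finset (Finset (Fin (2*d+1)))) \ J with hD
  have hJD : #J + #D = 2^(2*d+1) := by
    have h1 : #D + #J = #(Finset.univ : Finset (Finset (Fin (2*d+1)))) := by
      rw [hD]; exact Finset.card_sdiff_add_card_eq_card (Finset.subset_univ _)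
    rw [Finset.card_univ, Fintype.card_finset, Fintype.card_fin] at h1
    omega
  have hPD : P ∪ Q ⊆ D := by
    intro S hS
    rw [hD, Finset.mem_sdiff]
    refine ⟨Finset.mem_univ _, fun hSJ => ?_⟩
    rw [hJ, mem_unions] at hSJ
    obtain ⟨a, ha, b, hb, rfl⟩ := hSJ
    rw [Finset.mem_sdiff] at ha hb
    rcases Finset.mem_union.1 hS with h | h
    · exact hb.2 (hP _ h _ Finset.subset_union_right)
    · exact ha.2 (hQ _ h _ Finset.subset_union_left)
  suffices hgoal : 3 * 2^d ≤ #D + 1 by omega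
  by_cases huniv : (Finset.univ : Finset (Fin (2*d+1))) ∈ J
  · rw [hJ, mem_unions] at huniv
    obtain ⟨a, ha, b, hb, hab⟩ := huniv
    rw [Finset.mem_sdiff] at ha hb
    have h1 : a.powerset ∪ aᶜ.powerset ⊆ P ∪ Q := by
      apply Finset.union_subset_union
      · intro S hS
        exact hP a ha.1 S (Finset.mem_powerset.1 hS)
      · intro S hS
        apply hQ b hb.1 S
        intro x hx
        have hxa : x ∉ a := Finset.mem_compl.1 ((Finset.mem_powerset.1 hS) hx)
        have : x ∈ a ∪ b := by rw [hab]; exact Finset.mem_univ _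
        rcases Finset.mem_union.1 this with h | h
        · exact absurd h hxa
        · exact h
    have h2 : #(a.powerset ∪ aᶜ.powerset) ≤ #D := Finset.card_le_card (h1.trans hPD)
    have h3 : a.powerset ∩ aᶜ.powerset = {∅} := by
      ext S
      rw [Finset.mem_inter, Finset.mem_powerset, Finset.mem_powerset, Finset.mem_singleton]
      constructor
      · rintro ⟨h4, h5⟩
        rw [Finset.eq_empty_iff_forall_notMem]
        intro x hx
        exact (Finset.mem_compl.1 (h5 hx)) (h4 hx)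
      · rintro rfl
        exact ⟨Finset.empty_subset _, Finset.empty_subset _⟩
    have h4 := Finset.card_union_add_card_inter a.powerset aᶜ.powerset
    rw [h3, Finset.card_singleton, Finset.card_powerset, Finset.card_powerset] at h4
    have h5 : #a + #(aᶜ) = 2*d+1 := by
      rw [Finset.card_add_card_compl, Fintype.card_fin]
    have h6 := two_pow_sum h5
    omega
  · by_contra hcon
    have hDle : #D + 2 ≤ 3 * 2^d := by omega
    set R := P ∩ Q with hR
    set T := D \ (P ∪ Q) with hT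
    have hT1 : #T + #(P ∪ Q) = #D := by
      rw [hT]; exact Finset.card_sdiff_add_card_eq_card hPD
    have hU : P ∪ Q = ((P \ Q) ∪ (Q \ P)) ∪ R := by
      rw [hR]; ext S
      simp only [Finset.mem_union, Finset.mem_sdiff, Finset.mem_inter]
      tauto
    have hdis1 : Disjoint (P \ Q) (Q \ P) := by
      rw [Finset.disjoint_left]
      intro S h1 h2
      rw [Finset.mem_sdiff] at h1 h2
      exact h1.2 h2.1
    have hdis2 : Disjoint ((P \ Q) ∪ (Q \ P)) R := by
      rw [Finset.disjoint_left, hR]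
      intro S h1 h2
      simp only [Finset.mem_union, Finset.mem_sdiff, Finset.mem_inter] at h1 h2
      tauto
    have hPs : P = (P \ Q) ∪ R := by
      rw [hR]; ext S
      simp only [Finset.mem_union, Finset.mem_sdiff, Finset.mem_inter]
      tauto
    have hQs : Q = (Q \ P) ∪ R := by
      rw [hR]; ext S
      simp only [Finset.mem_union, Finset.mem_sdiff, Finset.mem_inter]
      tauto
    have hdisP : Disjoint (P \ Q) R := by
      rw [Finset.disjoint_left, hR]
      intro S h1 h2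
      simp only [Finset.mem_sdiff, Finset.mem_inter] at h1 h2
      tauto
    have hdisQ : Disjoint (Q \ P) R := by
      rw [Finset.disjoint_left, hR]
      intro S h1 h2
      simp only [Finset.mem_sdiff, Finset.mem_inter] at h1 h2
      tauto
    have hcU : #(P ∪ Q) = #(P \ Q) + #(Q \ P) + #R := by
      rw [hU, Finset.card_union_of_disjoint hdis2, Finset.card_union_of_disjoint hdis1]
    have hcP : #P = #(P \ Q) + #R := by
      conv_lhs => rw [hPs]
      rw [Finset.card_union_of_disjoint hdisP]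
    have hcQ : #Q = #(Q \ P) + #R := by
      conv_lhs => rw [hQs]
      rw [Finset.card_union_of_disjoint hdisQ]
    have hemptyR : (∅ : Finset (Fin (2*d+1))) ∈ R := by
      obtain ⟨a, ha⟩ := hPQ
      obtain ⟨b, hb⟩ := hQP
      rw [Finset.mem_sdiff] at ha hb
      rw [hR, Finset.mem_inter]
      exact ⟨hP a ha.1 _ (Finset.empty_subset _), hQ b hb.1 _ (Finset.empty_subset _)⟩
    have hr1 : 1 ≤ #R := Finset.card_pos.2 ⟨_, hemptyR⟩
    have ht1 : 1 ≤ #T := by
      apply Finset.card_pos.2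
      refine ⟨Finset.univ, ?_⟩
      rw [hT, Finset.mem_sdiff, hD, Finset.mem_sdiff]
      refine ⟨⟨Finset.mem_univ _, huniv⟩, fun h => ?_⟩
      rcases Finset.mem_union.1 h with h | h
      · obtain ⟨b, hb⟩ := hQP
        rw [Finset.mem_sdiff] at hb
        exact hb.2 (hP _ h _ (Finset.subset_univ _))
      · obtain ⟨a, ha⟩ := hPQ
        rw [Finset.mem_sdiff] at ha
        exact ha.2 (hQ _ h _ (Finset.subset_univ _))
    have hJle : #J ≤ #(P \ Q) * #(Q \ P) := card_unions_le _ _
    have hsum : #(P \ Q) + #(Q \ P) + #R + #T + 2 ≤ 3*2^d := by omega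
    have hpow : 2^(2*d+1) = 2*(2^d)^2 := by ring
    have hprod : 2*(2^d)^2 + 2 ≤ #(P \ Q) * #(Q \ P) + 3*2^d := by
      rw [← hpow]; omega
    have hnum := num d (#(P \ Q)) (#(Q \ P)) (#R) (#T) hr1 ht1 hsum hprod
    -- weights
    have hwP : ∑ S ∈ P, 3^(#S) = ∑ S ∈ P \ Q, 3^(#S) + ∑ S ∈ R, 3^(#S) := by
      conv_lhs => rw [hPs]
      rw [Finset.sum_union hdisP]
    have hwQ : ∑ S ∈ Q, 3^(#S) = ∑ S ∈ Q \ P, 3^(#S) + ∑ S ∈ R, 3^(#S) := by
      conv_lhs => rw [hQs]
      rw [Finset.sum_union hdisQ]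
    have hwU : ∑ S ∈ P ∪ Q, 3^(#S) =
        ∑ S ∈ P \ Q, 3^(#S) + ∑ S ∈ Q \ P, 3^(#S) + ∑ S ∈ R, 3^(#S) := by
      rw [hU, Finset.sum_union hdis2, Finset.sum_union hdis1]
    have hwD : ∑ S ∈ T, 3^(#S) + ∑ S ∈ P ∪ Q, 3^(#S) = ∑ S ∈ D, 3^(#S) := by
      rw [hT]; exact Finset.sum_sdiff hPD
    have hwall : ∑ S ∈ D, 3^(#S) + ∑ S ∈ J, 3^(#S) = 4^(2*d+1) := by
      rw [← weight_univ, hD]; exact Finset.sum_sdiff (Finset.subset_univ _)
    have hwJ := weight_unions_le (P \ Q) (Q \ P)
    rw [← hJ] at hwJ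
    have hwR : 1 ≤ ∑ S ∈ R, 3^(#S) := by
      have : (3:ℕ)^(#(∅ : Finset (Fin (2*d+1)))) ≤ ∑ S ∈ R, 3^(#S) :=
        Finset.single_le_sum (f := fun S : Finset (Fin (2*d+1)) => 3^(#S)) (fun _ _ => Nat.zero_le _) hemptyR
      simpa using this
    have hGP := weight_le_G Finset.univ P (fun _ _ => Finset.subset_univ _) hP
    have hGQ := weight_le_G Finset.univ Q (fun _ _ => Finset.subset_univ _) hQ
    rw [hcP] at hGP
    rw [hcQ] at hGQ
    rw [hwP] at hGP
    rw [hwQ] at hGQ
    have hTsq := sum_weight_sq_le T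
    -- generalize the sums
    generalize ∑ S ∈ P \ Q, 3^(#S) = A at *
    generalize ∑ S ∈ Q \ P, 3^(#S) = B at *
    generalize ∑ S ∈ R, 3^(#S) = C at *
    generalize ∑ S ∈ T, 3^(#S) = E at *
    have h4 : 4^(2*d+1) ≤ (A + C) * (B + C) + E := by nlinarith
    have h5 : 4^(2*d+1) ≤ G (#(P \ Q) + #R) * G (#(Q \ P) + #R) + E :=
      h4.trans (Nat.add_le_add_right (Nat.mul_le_mul hGP hGQ) _)
    have h5R : (4:ℝ)^(2*d+1) ≤ (G (#(P \ Q) + #R) : ℝ) * G (#(Q \ P) + #R) + E := by
      exact_mod_cast h5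
    have h6 : (4:ℝ)^(2*d+1) = 4*((2:ℝ)^d)^4 := by
      have : (4:ℝ) = 2^2 := by norm_num
      rw [pow_succ, this, ← pow_mul, ← pow_mul]; ring_nf
    have h7 : (E:ℝ) ≤ Real.sqrt (10*#T)*10^d := by
      have h8 : (E:ℝ)^2 ≤ #T * 10^(2*d+1) := by exact_mod_cast hTsq
      apply le_of_sq_le_sq' _ (mul_nonneg (Real.sqrt_nonneg _) (pow_nonneg (by norm_num) _))
      rw [mul_pow, Real.sq_sqrt (mul_nonneg (by norm_num) (Nat.cast_nonneg _))]
      calc (E:ℝ)^2 ≤ #T * 10^(2*d+1) := h8
        _ = 10 * #T * (10^d)^2 := by ring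
    rw [h6] at h5R
    linarith

end Pool.Agent.Q254.CrossSp
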